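import Pool.Agent.Y475.CP4Core

namespace Y475.CP4

/-! ### Variables, literals, clauses -/

def digs : ℕ → ℕ → List ℕ
  | 0, _ => []
  | k + 1, n => (n % 32) :: digs k (n / 32)

/-- digits of variable `i` -/
def getL (vt i : ℕ) : List ℕ :=
  digs (Nat.shiftRight vt (49 * i) / 32 % 16) (Nat.shiftRight vt (49 * i) / 512)

/-- zone mask of variable `i` -/
def getJ (vt i : ℕ) : ℕ := Nat.shiftRight vt (49 * i) % 32

variable (Z : ℕ → Finset (ZMod 31) → Prop) (vt : ℕ)

/-- truth of the variable `i` -/
def val (i : ℕ) : Prop := Z (getJ vt i) (S (getL vt i))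

/-- truth of the literal `l` -/
def tv (l : ℕ) : Prop := if l % 2 = 0 then val Z vt (l / 2) else ¬ val Z vt (l / 2)

/-- truth of a clause -/
def holds (c : List ℕ) : Prop := ∃ l ∈ c, tv Z vt l

theorem tv_even (i : ℕ) : tv Z vt (2 * i) ↔ val Z vt i := by
  unfold tv
  have h1 : 2 * i % 2 = 0 := by omega
  have h2 : 2 * i / 2 = i := by omega
  rw [if_pos h1, h2]

theorem tv_odd (i : ℕ) : tv Z vt (2 * i + 1) ↔ ¬ val Z vt i := by
  unfold tv
  have h1 : ¬ (2 * i + 1) % 2 = 0 := by omega
  have h2 : (2 * i + 1) / 2 = i := by omega
  rw [if_neg h1, h2]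

/-- complement of a literal -/
def compl (l : ℕ) : ℕ := cond (Nat.beq (l % 2) 0) (l + 1) (l - 1)

theorem tv_compl (l : ℕ) : tv Z vt (compl l) ↔ ¬ tv Z vt l := by
  unfold compl
  by_cases h : l % 2 = 0
  · have hb : Nat.beq (l % 2) 0 = true := by rw [h]; rfl
    rw [hb, cond_true]
    obtain ⟨i, rfl⟩ : ∃ i, l = 2 * i := ⟨l / 2, by omega⟩
    rw [tv_odd, tv_even]
  · have hb : Nat.beq (l % 2) 0 = false := by
      rw [Bool.eq_false_iff]
      intro hc
      exact h (Nat.eq_of_beq_eq_true hc)
    rw [hb, cond_false]
    obtain ⟨i, rfl⟩ : ∃ i, l = 2 * i + 1 := ⟨l / 2, by omega⟩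
    have : 2 * i + 1 - 1 = 2 * i := by omega
    rw [this, tv_odd, tv_even, not_not]

/-! ### Resolution -/

/-- evaluation of a clause under the set `F` of false literals:
`none`: two open literals; `some none`: all false; `some (some l)`: unit. -/
def evalC (F : ℕ) : List ℕ → Option ℕ → Option (Option ℕ)
  | [], o => some o
  | l :: c, o =>
    cond (Nat.beq (Nat.land (Nat.shiftRight F l) 1) 1) (evalC F c o)
      (match o with
        | none => evalC F c (some l)
        | some l' => cond (Nat.beq l l') (evalC F c o) none)

theorem land_shiftRight_one (F l : ℕ) : Nat.beq (Nat.land (Nat.shiftRight F l) 1) 1 = true ↔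
    F.testBit l = true := by
  rw [Nat.beq_eq]
  have h0 : Nat.land (Nat.shiftRight F l) 1 = (F >>> l) &&& 1 := rfl
  rw [h0, Nat.testBit, Nat.and_comm]
  have : 1 &&& F >>> l = F >>> l % 2 := by rw [Nat.one_and_eq_mod_two]
  rw [this]
  have h2 := Nat.mod_two_eq_zero_or_one (F >>> l)
  rcases h2 with h | h <;> simp [h]

theorem evalC_spec (F : ℕ) (c : List ℕ) :
    ∀ (o : Option ℕ) (r : Option ℕ), evalC F c o = some r →
      (∀ l' ∈ c, F.testBit l' = true ∨ r = some l') ∧ (∀ l', o = some l' → r = some l') := by
  induction c with
  | nil =>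
    intro o r h
    simp only [evalC, Option.some.injEq] at h
    subst h
    exact ⟨by simp, fun l' h => h⟩
  | cons l c ih =>
    intro o r h
    unfold evalC at h
    by_cases hb : F.testBit l = true
    · rw [(land_shiftRight_one F l).2 hb, cond_true] at h
      obtain ⟨h1, h2⟩ := ih o r h
      refine ⟨?_, h2⟩
      intro l' hl'
      rcases List.mem_cons.1 hl' with rfl | hl'
      · exact Or.inl hb
      · exact h1 l' hl'
    · have hb' : Nat.beq (Nat.land (Nat.shiftRight F l) 1) 1 = false := by
        rw [Bool.eq_false_iff]
        intro hc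
        exact hb ((land_shiftRight_one F l).1 hc)
      rw [hb', cond_false] at h
      cases o with
      | none =>
        obtain ⟨h1, h2⟩ := ih (some l) r h
        refine ⟨?_, by simp⟩
        intro l' hl'
        rcases List.mem_cons.1 hl' with rfl | hl'
        · exact Or.inr (h2 _ rfl)
        · exact h1 l' hl'
      | some k =>
        simp only at h
        by_cases hk : l = k
        · subst hk
          have : Nat.beq l l = true := Nat.beq_refl l
          rw [this, cond_true] at h
          obtain ⟨h1, h2⟩ := ih (some l) r h
          refine ⟨?_, h2⟩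
          intro l' hl'
          rcases List.mem_cons.1 hl' with rfl | hl'
          · exact Or.inr (h2 _ rfl)
          · exact h1 l' hl'
        · have : Nat.beq l k = false := by
            rw [Bool.eq_false_iff]
            intro hc
            exact hk (Nat.eq_of_beq_eq_true hc)
          rw [this, cond_false] at h
          exact absurd h (by simp)

/-- binary tree of clauses -/
inductive Tr
  | e
  | leaf (c : List ℕ)
  | n (l r : Tr)

def Tr.get : ℕ → Tr → ℕ → Option (List ℕ)
  | _, .e, _ => none
  | _, .leaf c, _ => some c
  | 0, .n _ _, _ => none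
  | d + 1, .n l r, k => cond (Nat.beq (k % 2) 0) (Tr.get d l (k / 2)) (Tr.get d r (k / 2))

/-- reverse unit propagation: `F` false literals, hints must be below `n`. -/
def rup (db : Tr) (n : ℕ) : List ℕ → ℕ → Bool
  | [], _ => false
  | h :: hs, F =>
    cond (Nat.blt h n)
      (match db.get 11 h with
        | none => false
        | some c =>
          match evalC F c none with
          | none => false
          | some none => true
          | some (some l) => rup db n hs (Nat.lor F (Nat.shiftLeft 1 (compl l))))
      false

theorem rup_sound (db : Tr) (n : ℕ) (hdb : ∀ h < n, ∀ c, db.get 11 h = some c → holds Z vt c) :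
    ∀ (hs : List ℕ) (F : ℕ), (∀ l, F.testBit l = true → ¬ tv Z vt l) → rup db n hs F = true →
      False := by
  intro hs
  induction hs with
  | nil => intro F _ h; simp [rup] at h
  | cons h hs ih =>
    intro F hF hr
    rw [rup] at hr
    by_cases hlt : Nat.blt h n = true
    · rw [hlt, cond_true] at hr
      have hlt' : h < n := by simpa using hlt
      cases hc : db.get 11 h with
      | none => rw [hc] at hr; exact absurd hr (by simp)
      | some c =>
        rw [hc] at hr
        simp only at hr
        have hh := hdb h hlt' c hc
        obtain ⟨l', hl', ht⟩ := hh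
        cases he : evalC F c none with
        | none => rw [he] at hr; exact absurd hr (by simp)
        | some r =>
          obtain ⟨h1, _⟩ := evalC_spec F c none r he
          have h3 := h1 l' hl'
          rcases h3 with h3 | h3
          · exact hF l' h3 ht
          · subst h3
            rw [he] at hr
            simp only at hr
            apply ih _ _ hr
            intro l hl
            have h0 : Nat.lor F (Nat.shiftLeft 1 (compl l')) = F ||| (1 <<< compl l') := rfl
            rw [h0, Nat.testBit_or, Bool.or_eq_true, Nat.one_shiftLeft, Nat.testBit_two_pow] at hl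
            rcases hl with hl | hl
            · exact hF l hl
            · have : compl l' = l := by simpa using hl
              rw [← this, tv_compl, not_not]
              exact ht
    · have hlt2 : Nat.blt h n = false := Bool.eq_false_iff.2 hlt
      rw [hlt2, cond_false] at hr
      exact absurd hr (by simp)

/-- the set of literals of a clause -/
def litSet : List ℕ → ℕ
  | [] => 0
  | l :: c => Nat.lor (Nat.shiftLeft 1 l) (litSet c)

theorem testBit_litSet (c : List ℕ) (y : ℕ) : (litSet c).testBit y = true ↔ y ∈ c := by
  induction c with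
  | nil => simp [litSet]
  | cons x l ih =>
    have h1 : litSet (x :: l) = (1 <<< x) ||| litSet l := rfl
    rw [h1, Nat.testBit_or, Bool.or_eq_true, ih, Nat.one_shiftLeft, Nat.testBit_two_pow]
    simp [eq_comm]

theorem rup_clause (db : Tr) (n : ℕ) (hdb : ∀ h < n, ∀ c, db.get 11 h = some c → holds Z vt c)
    (c hs : List ℕ) (h : rup db n hs (litSet c) = true) : holds Z vt c := by
  by_contra hn
  apply rup_sound Z vt db n hdb hs (litSet c) _ h
  intro l hl ht
  exact hn ⟨l, (testBit_litSet c l).1 hl, ht⟩

end Y475.CP4
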