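import Mathlib

/-!
Checker for the symmetric zone systems of a perfect equilibrium triangulation of `CP^4`.
-/

namespace Y475.CP4

/-- Facet of the permcycle `1 2 4 8 16`: `x`, `x + b₁`, `x + b₁ + b₂`, ... -/
def torusFacet (x : ZMod 31) (b : List ℕ) : Finset (ZMod 31) :=
  ((b.scanl (· + ·) 0).map (fun s : ℕ => x + (s : ZMod 31))).toFinset

/-- The face sets of the central torus. -/
def torus : Set (Finset (ZMod 31)) :=
  {A | A.Nonempty ∧ ∃ (x : ZMod 31) (b : List ℕ), b.Perm [1, 2, 4, 8] ∧ A ⊆ torusFacet x b}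

/-- number of bits of a five bit mask -/
def pc (J : ℕ) : ℕ := (List.range 5).countP (fun i => J.testBit i)

/-- Combinatorial properties of a symmetric zone system, zones indexed by bit masks `J` (the
complement of the index set) with at most three bits. -/
structure Sys (Z : ℕ → Finset (ZMod 31) → Prop) : Prop where
  inter : ∀ J K A, J < 31 → K < 31 → Z J A → Z K A → Z (J &&& K) A
  mono : ∀ J K A, J < 31 → K < 31 → J &&& K = J → Z J A → Z K A
  sub : ∀ J A B, J < 31 → B ⊆ A → B.Nonempty → Z J A → Z J B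
  tau : ∀ J A, J < 31 → Z J A → Z J (A.image (fun x => x + 1))
  rho : ∀ J A, J < 31 → Z J A → Z J (A.image (fun x => -x))
  sig : ∀ J A, J < 31 → Z J A → Z (J * 2 % 31) (A.image (fun x => 2 * x))
  tor : ∀ A, Z 0 A ↔ A ∈ torus
  ext : ∀ J A, J < 31 → 1 ≤ pc J → pc J ≤ 3 → A.card = 4 + pc J → Z J A →
    ∃ v, v ∉ A ∧ Z J (insert v A)
  int : ∀ J A v, J < 31 → 1 ≤ pc J → pc J ≤ 3 → A.card = 4 + pc J → v ∉ A → Z J (insert v A) →
    (∀ i, i < 5 → J.testBit i = true → ¬ Z (J ^^^ 2 ^ i) A) →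
    ∃ v', v' ∉ A ∧ v' ≠ v ∧ Z J (insert v' A)

/-- the set named by a list of digits -/
def S (l : List ℕ) : Finset (ZMod 31) := (l.map (fun x : ℕ => (x : ZMod 31))).toFinset

theorem mem_S {l : List ℕ} {y : ZMod 31} : y ∈ S l ↔ ∃ x ∈ l, (x : ZMod 31) = y := by
  simp [S]

theorem S_cons (x : ℕ) (l : List ℕ) : S (x :: l) = insert (x : ZMod 31) (S l) := by
  simp [S]

theorem S_mono {l l' : List ℕ} (h : ∀ x ∈ l, x ∈ l') : S l ⊆ S l' := by
  intro y hy
  rw [mem_S] at hy ⊢
  obtain ⟨x, hx, rfl⟩ := hy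
  exact ⟨x, h x hx, rfl⟩

/-- bit mask of a list of digits -/
def mk : List ℕ → ℕ
  | [] => 0
  | x :: l => Nat.lor (Nat.shiftLeft 1 x) (mk l)

theorem testBit_mk (l : List ℕ) (y : ℕ) : (mk l).testBit y = true ↔ y ∈ l := by
  induction l with
  | nil => simp [mk]
  | cons x l ih =>
    have h1 : mk (x :: l) = (1 <<< x) ||| mk l := rfl
    rw [h1, Nat.testBit_or, Bool.or_eq_true, ih, Nat.one_shiftLeft, Nat.testBit_two_pow]
    simp [eq_comm]

/-- `l` is contained in the list with mask `m` -/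
def subM (l : List ℕ) (m : ℕ) : Bool := Nat.beq (Nat.land (mk l) m) (mk l)

theorem subM_iff {l l' : List ℕ} : subM l (mk l') = true ↔ ∀ x ∈ l, x ∈ l' := by
  unfold subM
  rw [Nat.beq_eq]
  have h0 : Nat.land (mk l) (mk l') = mk l &&& mk l' := rfl
  rw [h0]
  constructor
  · intro h x hx
    rw [← testBit_mk] at hx ⊢
    rw [← h, Nat.testBit_and, Bool.and_eq_true] at hx
    exact hx.2
  · intro h
    apply Nat.eq_of_testBit_eq
    intro i
    rw [Nat.testBit_and]
    by_cases hi : (mk l).testBit i = true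
    · have h2 : i ∈ l' := h i ((testBit_mk l i).1 hi)
      rw [hi, (testBit_mk l' i).2 h2]; rfl
    · have : (mk l).testBit i = false := by simpa using hi
      rw [this]; rfl

theorem S_sub_of_subM {l l' : List ℕ} (h : subM l (mk l') = true) : S l ⊆ S l' :=
  S_mono (subM_iff.1 h)

theorem S_eq_of_mk {l l' : List ℕ} (h : mk l = mk l') : S l = S l' := by
  apply Finset.Subset.antisymm
  · apply S_mono
    intro x hx
    rw [← testBit_mk] at hx ⊢
    rwa [← h]
  · apply S_mono
    intro x hx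
    rw [← testBit_mk] at hx ⊢
    rwa [h]

/-- the action of a group element coded by `w` on digits -/
def wact (w : ℕ) (l : List ℕ) : List ℕ :=
  l.map (fun x => (cond (Nat.beq (w / 5 % 2) 0) (2 ^ (w % 5)) (31 - 2 ^ (w % 5)) * x + w / 10) % 31)

def wrot (w J : ℕ) : ℕ := (J * 2 ^ (w % 5)) % 31

def wrotInv (w J : ℕ) : ℕ := (J * 2 ^ (5 - w % 5)) % 31

theorem wrot_wrotInv (w J : ℕ) (hJ : J < 31) : wrot w (wrotInv w J) = J := by
  unfold wrot wrotInv
  have h5 : w % 5 < 5 := Nat.mod_lt _ (by norm_num)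
  rw [Nat.mod_mul_mod, mul_assoc, ← pow_add]
  have : 5 - w % 5 + w % 5 = 5 := by omega
  rw [this]
  omega

variable {Z : ℕ → Finset (ZMod 31) → Prop}

section action

variable (hZ : Sys Z)

include hZ

theorem tau_pow (J : ℕ) (A : Finset (ZMod 31)) (hJ : J < 31) (n : ℕ) (h : Z J A) :
    Z J (A.image (fun x => x + (n : ZMod 31))) := by
  induction n with
  | zero => simpa using h
  | succ n ih =>
    have := hZ.tau J _ hJ ih
    rw [Finset.image_image] at this
    convert this using 2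
    ext x
    simp [Function.comp, add_assoc]

theorem sig_pow (A : Finset (ZMod 31)) (n : ℕ) : ∀ J, J < 31 → Z J A →
    Z (J * 2 ^ n % 31) (A.image (fun x => 2 ^ n * x)) := by
  induction n with
  | zero =>
    intro J hJ h
    simpa [Nat.mod_eq_of_lt hJ] using h
  | succ n ih =>
    intro J hJ h
    have := hZ.sig _ _ (Nat.mod_lt _ (by norm_num)) (ih J hJ h)
    rw [Finset.image_image, Nat.mod_mul_mod] at this
    have e1 : J * 2 ^ (n + 1) = J * 2 ^ n * 2 := by rw [pow_succ, mul_assoc]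
    have e2 : (fun x : ZMod 31 => 2 ^ (n + 1) * x) =
        (fun x => 2 * x) ∘ (fun x => 2 ^ n * x) := by
      funext x
      simp only [Function.comp]
      ring
    rw [e1, e2]
    exact this

theorem wact_fwd (w J : ℕ) (l : List ℕ) (hJ : J < 31) (h : Z J (S l)) :
    Z (wrot w J) (S (wact w l)) := by
  have h5 : w % 5 < 5 := Nat.mod_lt _ (by norm_num)
  have h1 := sig_pow hZ (S l) (w % 5) J hJ h
  have hlt : J * 2 ^ (w % 5) % 31 < 31 := Nat.mod_lt _ (by norm_num)
  have key : ∀ a : ℕ, (∀ x : ZMod 31, (a : ZMod 31) * x = (a : ZMod 31) * x) →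
      S (l.map (fun x => (a * x + w / 10) % 31)) =
        ((S l).image (fun x => (a : ZMod 31) * x)).image (fun x => x + ((w / 10 : ℕ) : ZMod 31)) := by
    intro a _
    ext y
    simp only [S, List.map_map, List.mem_toFinset, List.mem_map, Finset.mem_image, Function.comp]
    constructor
    · rintro ⟨x, hx, rfl⟩
      refine ⟨(a : ZMod 31) * x, ⟨x, ⟨x, hx, rfl⟩, rfl⟩, ?_⟩
      rw [ZMod.natCast_mod]
      push_cast
      ring
    · rintro ⟨_, ⟨_, ⟨x, hx, rfl⟩, rfl⟩, rfl⟩
      refine ⟨x, hx, ?_⟩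
      rw [ZMod.natCast_mod]
      push_cast
      ring
  unfold wact wrot
  by_cases he : w / 5 % 2 = 0
  · have hb : Nat.beq (w / 5 % 2) 0 = true := by rw [he]; rfl
    simp only [hb, cond_true]
    rw [key _ (fun _ => rfl)]
    apply tau_pow hZ _ _ hlt
    convert h1 using 4
    push_cast
    rfl
  · have hb : Nat.beq (w / 5 % 2) 0 = false := by
      rw [Bool.eq_false_iff]
      intro hc
      exact he (Nat.eq_of_beq_eq_true hc)
    simp only [hb, cond_false]
    rw [key _ (fun _ => rfl)]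
    apply tau_pow hZ _ _ hlt
    have h2 := hZ.rho _ _ hlt h1
    rw [Finset.image_image] at h2
    convert h2 using 4
    have hle : 2 ^ (w % 5) ≤ 31 := by
      calc 2 ^ (w % 5) ≤ 2 ^ 4 := Nat.pow_le_pow_right (by norm_num) (by omega)
        _ ≤ 31 := by norm_num
    simp only [Function.comp]
    rw [Nat.cast_sub hle]
    have h31 : ((31 : ℕ) : ZMod 31) = 0 := by decide
    rw [h31]
    push_cast
    ring

theorem tau_back (J : ℕ) (A : Finset (ZMod 31)) (hJ : J < 31) (n : ℕ)
    (h : Z J (A.image (fun x => x + (n : ZMod 31)))) : Z J A := by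
  have h1 := tau_pow hZ J _ hJ (30 * n) h
  rw [Finset.image_image] at h1
  have e : ((fun x : ZMod 31 => x + ((30 * n : ℕ) : ZMod 31)) ∘ fun x => x + (n : ZMod 31)) = id := by
    funext x
    simp only [Function.comp, id]
    have h31 : ((31 : ℕ) : ZMod 31) = 0 := by decide
    have : x + (n : ZMod 31) + ((30 * n : ℕ) : ZMod 31) = x + ((31 : ℕ) : ZMod 31) * n := by
      push_cast; ring
    rw [this, h31]; ring
  rw [e, Finset.image_id] at h1
  exact h1

theorem rho_back (J : ℕ) (A : Finset (ZMod 31)) (hJ : J < 31)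
    (h : Z J (A.image (fun x => -x))) : Z J A := by
  have h1 := hZ.rho J _ hJ h
  rw [Finset.image_image] at h1
  have e : ((fun x : ZMod 31 => -x) ∘ fun x => -x) = id := by
    funext x; simp
  rw [e, Finset.image_id] at h1
  exact h1

theorem sig_back (J : ℕ) (A : Finset (ZMod 31)) (hJ : J < 31) (t : ℕ) (ht : t < 5)
    (h : Z (J * 2 ^ t % 31) (A.image (fun x => 2 ^ t * x))) : Z J A := by
  have h1 := sig_pow hZ _ (5 - t) _ (Nat.mod_lt _ (by norm_num)) h
  rw [Finset.image_image] at h1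
  have e : ((fun x : ZMod 31 => 2 ^ (5 - t) * x) ∘ fun x => 2 ^ t * x) = id := by
    funext x
    simp only [Function.comp, id]
    rw [← mul_assoc, ← pow_add]
    have : 5 - t + t = 5 := by omega
    rw [this]
    have h32 : (2 : ZMod 31) ^ 5 = 1 := by decide
    rw [h32, one_mul]
  rw [e, Finset.image_id, Nat.mod_mul_mod, mul_assoc, ← pow_add] at h1
  have : t + (5 - t) = 5 := by omega
  rw [this] at h1
  have e2 : J * 2 ^ 5 % 31 = J := by omega
  rwa [e2] at h1

theorem wact_back (w J : ℕ) (l : List ℕ) (hJ : J < 31) (h : Z (wrot w J) (S (wact w l))) :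
    Z J (S l) := by
  have h5 : w % 5 < 5 := Nat.mod_lt _ (by norm_num)
  have hlt : J * 2 ^ (w % 5) % 31 < 31 := Nat.mod_lt _ (by norm_num)
  have key : ∀ a : ℕ, S (l.map (fun x => (a * x + w / 10) % 31)) =
        ((S l).image (fun x => (a : ZMod 31) * x)).image (fun x => x + ((w / 10 : ℕ) : ZMod 31)) := by
    intro a
    ext y
    simp only [S, List.map_map, List.mem_toFinset, List.mem_map, Finset.mem_image, Function.comp]
    constructor
    · rintro ⟨x, hx, rfl⟩
      refine ⟨(a : ZMod 31) * x, ⟨x, ⟨x, hx, rfl⟩, rfl⟩, ?_⟩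
      rw [ZMod.natCast_mod]
      push_cast
      ring
    · rintro ⟨_, ⟨_, ⟨x, hx, rfl⟩, rfl⟩, rfl⟩
      refine ⟨x, hx, ?_⟩
      rw [ZMod.natCast_mod]
      push_cast
      ring
  unfold wact wrot at h
  by_cases he : w / 5 % 2 = 0
  · have hb : Nat.beq (w / 5 % 2) 0 = true := by rw [he]; rfl
    simp only [hb, cond_true] at h
    rw [key] at h
    have h2 := tau_back hZ _ _ hlt _ h
    apply sig_back hZ J _ hJ _ h5
    convert h2 using 4
    push_cast
    rfl
  · have hb : Nat.beq (w / 5 % 2) 0 = false := by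
      rw [Bool.eq_false_iff]
      intro hc
      exact he (Nat.eq_of_beq_eq_true hc)
    simp only [hb, cond_false] at h
    rw [key] at h
    have h2 := tau_back hZ _ _ hlt _ h
    apply sig_back hZ J _ hJ _ h5
    apply rho_back hZ _ _ hlt
    rw [Finset.image_image]
    convert h2 using 4
    have hle : 2 ^ (w % 5) ≤ 31 := by
      calc 2 ^ (w % 5) ≤ 2 ^ 4 := Nat.pow_le_pow_right (by norm_num) (by omega)
        _ ≤ 31 := by norm_num
    simp only [Function.comp]
    rw [Nat.cast_sub hle]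
    have h31 : ((31 : ℕ) : ZMod 31) = 0 := by decide
    rw [h31]
    push_cast
    ring

end action

/-! ### The torus -/

def scanMod : ℕ → List ℕ → List ℕ
  | x, [] => [x]
  | x, g :: b => x :: scanMod ((x + g) % 31) b

theorem S_scanMod_aux (b : List ℕ) : ∀ (x : ℕ) (s : ℕ) (y : ZMod 31), (x : ZMod 31) = y + (s : ZMod 31) →
    S (scanMod x b) = ((b.scanl (· + ·) s).map (fun s : ℕ => y + (s : ZMod 31))).toFinset := by
  induction b with
  | nil =>
    intro x s y h
    simp [scanMod, S, h]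
  | cons g b ih =>
    intro x s y h
    rw [scanMod, S_cons, List.scanl_cons, List.map_cons, List.toFinset_cons, h]
    rw [ih ((x + g) % 31) (s + g) y]
    rw [ZMod.natCast_mod]
    push_cast
    rw [h]
    ring

theorem S_scanMod (x : ℕ) (b : List ℕ) : S (scanMod x b) = torusFacet (x : ZMod 31) b := by
  unfold torusFacet
  apply S_scanMod_aux
  simp

/-- the 24 permutations -/
def P24 : List (List ℕ) :=
  [[1, 2, 4, 8], [1, 2, 8, 4], [1, 4, 2, 8], [1, 4, 8, 2], [1, 8, 2, 4], [1, 8, 4, 2],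
   [2, 1, 4, 8], [2, 1, 8, 4], [2, 4, 1, 8], [2, 4, 8, 1], [2, 8, 1, 4], [2, 8, 4, 1],
   [4, 1, 2, 8], [4, 1, 8, 2], [4, 2, 1, 8], [4, 2, 8, 1], [4, 8, 1, 2], [4, 8, 2, 1],
   [8, 1, 2, 4], [8, 1, 4, 2], [8, 2, 1, 4], [8, 2, 4, 1], [8, 4, 1, 2], [8, 4, 2, 1]]

theorem P24_perm : ∀ b ∈ P24, b.Perm [1, 2, 4, 8] := by decide

theorem mem_P24 (b : List ℕ) (h : b.Perm [1, 2, 4, 8]) : b ∈ P24 := by
  have hl : b.length = 4 := h.length_eq
  have hm : ∀ x ∈ b, x ∈ [1, 2, 4, 8] := fun x hx => h.mem_iff.1 hx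
  match b, hl with
  | [p, q, r, s], _ =>
    have h1 := hm p (by simp)
    have h2 := hm q (by simp)
    have h3 := hm r (by simp)
    have h4 := hm s (by simp)
    have key : ∀ p ∈ [1, 2, 4, 8], ∀ q ∈ [1, 2, 4, 8], ∀ r ∈ [1, 2, 4, 8], ∀ s ∈ [1, 2, 4, 8],
        [p, q, r, s].Perm [1, 2, 4, 8] → [p, q, r, s] ∈ P24 := by decide
    exact key p h1 q h2 r h3 s h4 h

/-- `l` is not contained in a torus facet -/
def notT (l : List ℕ) : Bool :=
  l.all (fun x => Nat.blt x 31) &&
  (List.range 31).all (fun x => P24.all (fun b => !(subM l (mk (scanMod x b)))))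

theorem scanMod_lt (b : List ℕ) : ∀ x, x < 31 → ∀ y ∈ scanMod x b, y < 31 := by
  induction b with
  | nil =>
    intro x hx y hy
    simp only [scanMod, List.mem_singleton] at hy
    omega
  | cons g b ih =>
    intro x hx y hy
    simp only [scanMod, List.mem_cons] at hy
    rcases hy with rfl | hy
    · exact hx
    · exact ih _ (Nat.mod_lt _ (by norm_num)) y hy

theorem cast_inj31 {x y : ℕ} (hx : x < 31) (hy : y < 31) (h : (x : ZMod 31) = (y : ZMod 31)) :
    x = y := by
  rw [ZMod.natCast_eq_natCast_iff'] at h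
  rwa [Nat.mod_eq_of_lt hx, Nat.mod_eq_of_lt hy] at h

theorem not_torus_of_notT {l : List ℕ} (h : notT l = true) : S l ∉ torus := by
  unfold notT at h
  rw [Bool.and_eq_true, List.all_eq_true, List.all_eq_true] at h
  obtain ⟨hlt, hall⟩ := h
  rintro ⟨_, x, b, hb, hsub⟩
  have hx := hall x.val (by simpa using ZMod.val_lt x)
  rw [List.all_eq_true] at hx
  have hb' := hx b (mem_P24 b hb)
  have hcast : ((x.val : ℕ) : ZMod 31) = x := ZMod.natCast_zmod_val x
  have : subM l (mk (scanMod x.val b)) = true := by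
    rw [subM_iff]
    intro y hy
    have hy31 : y < 31 := by
      have := hlt y hy
      simpa using this
    have h1 : (y : ZMod 31) ∈ torusFacet x b := hsub (mem_S.2 ⟨y, hy, rfl⟩)
    rw [← hcast, ← S_scanMod, mem_S] at h1
    obtain ⟨z, hz, hzy⟩ := h1
    have hz31 := scanMod_lt b x.val (ZMod.val_lt x) z hz
    rw [cast_inj31 hz31 hy31 hzy] at hz
    exact hz
  rw [this] at hb'
  simp at hb'

theorem torus_of_facet (x : ℕ) (b : List ℕ) (hb : b ∈ P24) : S (scanMod x b) ∈ torus := by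
  refine ⟨?_, (x : ZMod 31), b, P24_perm b hb, ?_⟩
  · cases b with
    | nil => exact ⟨(x : ZMod 31), mem_S.2 ⟨x, by simp [scanMod], rfl⟩⟩
    | cons g b => exact ⟨(x : ZMod 31), mem_S.2 ⟨x, by simp [scanMod], rfl⟩⟩
  · rw [S_scanMod]

end Y475.CP4
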