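import Pool.Agent.Y475.CP4Check

namespace Y475.CP4

/-- representatives of the eleven classes of triangles outside the torus -/
def cls : List (List ℕ) :=
  [[0, 1, 2], [0, 1, 4], [0, 2, 5], [0, 1, 6], [0, 3, 6], [0, 3, 8], [0, 3, 9], [0, 4, 9],
   [0, 3, 10], [0, 5, 10], [0, 5, 11]]

theorem cls_ok : cls.all (fun l => notT l && !(l.isEmpty)) = true := by decide +kernel

theorem cls_mem {l : List ℕ} (h : l ∈ cls) : S l ∉ torus ∧ l ≠ [] := by
  have := List.all_eq_true.1 cls_ok l h
  rw [Bool.and_eq_true] at this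
  refine ⟨not_torus_of_notT this.1, ?_⟩
  rintro rfl
  simp at this

variable {Z : ℕ → Finset (ZMod 31) → Prop} (hZ : Sys Z) (vt : ℕ)

include hZ

theorem not_zero_cls {l : List ℕ} (h : l ∈ cls) : ¬ Z 0 (S l) := by
  rw [hZ.tor]
  exact (cls_mem h).1

omit hZ in
theorem S_nonempty {l : List ℕ} (h : l ≠ []) : (S l).Nonempty := by
  cases l with
  | nil => exact absurd rfl h
  | cons x l => exact ⟨(x : ZMod 31), mem_S.2 ⟨x, by simp, rfl⟩⟩

omit hZ in
theorem wact_ne {w : ℕ} {l : List ℕ} (h : l ≠ []) : wact w l ≠ [] := by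
  cases l with
  | nil => exact absurd rfl h
  | cons x l => simp [wact]

omit hZ in
/-- membership clause check -/
theorem wrotInv_lt (w J : ℕ) : wrotInv w J < 31 := Nat.mod_lt _ (by norm_num)

/-- a face containing the image of `l` -/
theorem sub_image (w J : ℕ) (l F : List ℕ) (hJ : J < 31) (hl : l ≠ [])
    (hs : subM (wact w l) (mk F) = true) (h : Z J (S F)) : Z (wrotInv w J) (S l) := by
  have h1 : Z J (S (wact w l)) :=
    hZ.sub J _ _ hJ (S_sub_of_subM hs) (S_nonempty (wact_ne hl)) h
  apply wact_back hZ w _ l (wrotInv_lt w J)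
  rwa [wrot_wrotInv w J hJ]

omit hZ in
def chkK (vt i j w : ℕ) : Bool :=
  Nat.blt (getJ vt i) 31 && (Nat.blt (getJ vt j) 31 && (Nat.beq (wrot w (getJ vt j)) (getJ vt i) &&
   (subM (wact w (getL vt j)) (mk (getL vt i)) && !(getL vt j).isEmpty)))

theorem chkK_sound {i j w : ℕ} (h : chkK vt i j w = true) : holds Z vt [2 * i + 1, 2 * j] := by
  unfold chkK at h
  simp only [Bool.and_eq_true, Nat.blt_eq, Nat.beq_eq, Bool.not_eq_true'] at h
  obtain ⟨h1, h2, h3, h4, h5⟩ := h
  have hne : getL vt j ≠ [] := by
    intro hc; rw [hc] at h5; simp at h5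
  by_cases hv : val Z vt i
  · refine ⟨2 * j, by simp, ?_⟩
    rw [tv_even]
    unfold val at hv ⊢
    apply wact_back hZ w _ _ h2
    rw [h3]
    exact hZ.sub _ _ _ h1 (S_sub_of_subM h4) (S_nonempty (wact_ne hne)) hv
  · exact ⟨2 * i + 1, by simp, (tv_odd Z vt i).2 hv⟩

omit hZ in
def chkM (vt i j k : ℕ) : Bool :=
  Nat.blt (getJ vt i) 31 && (Nat.blt (getJ vt j) 31 &&
   (Nat.beq (mk (getL vt i)) (mk (getL vt k)) && (Nat.beq (mk (getL vt j)) (mk (getL vt k)) &&
    Nat.beq (Nat.land (getJ vt i) (getJ vt j)) (getJ vt k))))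

theorem chkM_sound {i j k : ℕ} (h : chkM vt i j k = true) :
    holds Z vt [2 * i + 1, 2 * j + 1, 2 * k] := by
  unfold chkM at h
  simp only [Bool.and_eq_true, Nat.blt_eq, Nat.beq_eq] at h
  obtain ⟨h1, h2, h3, h4, h5⟩ := h
  by_cases hv : val Z vt i
  · by_cases hw : val Z vt j
    · refine ⟨2 * k, by simp, ?_⟩
      rw [tv_even]
      unfold val at hv hw ⊢
      rw [S_eq_of_mk h3] at hv
      rw [S_eq_of_mk h4] at hw
      have := hZ.inter _ _ _ h1 h2 hv hw
      have h5' : getJ vt i &&& getJ vt j = getJ vt k := h5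
      rwa [h5'] at this
    · exact ⟨2 * j + 1, by simp, (tv_odd Z vt j).2 hw⟩
  · exact ⟨2 * i + 1, by simp, (tv_odd Z vt i).2 hv⟩

omit hZ in
def chkM0 (vt i j : ℕ) (l : List ℕ) : Bool :=
  Nat.blt (getJ vt i) 31 && (Nat.blt (getJ vt j) 31 &&
   (Nat.beq (mk (getL vt i)) (mk l) && (Nat.beq (mk (getL vt j)) (mk l) &&
    Nat.beq (Nat.land (getJ vt i) (getJ vt j)) 0)))

theorem chkM0_sound {i j : ℕ} {l : List ℕ} (hl : l ∈ cls) (h : chkM0 vt i j l = true) :
    holds Z vt [2 * i + 1, 2 * j + 1] := by
  unfold chkM0 at h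
  simp only [Bool.and_eq_true, Nat.blt_eq, Nat.beq_eq] at h
  obtain ⟨h1, h2, h3, h4, h5⟩ := h
  by_cases hv : val Z vt i
  · by_cases hw : val Z vt j
    · exfalso
      unfold val at hv hw
      rw [S_eq_of_mk h3] at hv
      rw [S_eq_of_mk h4] at hw
      have := hZ.inter _ _ _ h1 h2 hv hw
      have h5' : getJ vt i &&& getJ vt j = 0 := h5
      rw [h5'] at this
      exact not_zero_cls hZ hl this
    · exact ⟨2 * j + 1, by simp, (tv_odd Z vt j).2 hw⟩
  · exact ⟨2 * i + 1, by simp, (tv_odd Z vt i).2 hv⟩

omit hZ in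
def chkN (vt i j : ℕ) : Bool :=
  Nat.blt (getJ vt i) 31 && (Nat.blt (getJ vt j) 31 &&
   (Nat.beq (mk (getL vt i)) (mk (getL vt j)) &&
    Nat.beq (Nat.land (getJ vt i) (getJ vt j)) (getJ vt i)))

theorem chkN_sound {i j : ℕ} (h : chkN vt i j = true) : holds Z vt [2 * i + 1, 2 * j] := by
  unfold chkN at h
  simp only [Bool.and_eq_true, Nat.blt_eq, Nat.beq_eq] at h
  obtain ⟨h1, h2, h3, h4⟩ := h
  by_cases hv : val Z vt i
  · refine ⟨2 * j, by simp, ?_⟩
    rw [tv_even]
    unfold val at hv ⊢
    rw [S_eq_of_mk h3] at hv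
    exact hZ.mono _ _ _ h1 h2 h4 hv
  · exact ⟨2 * i + 1, by simp, (tv_odd Z vt i).2 hv⟩

/-! ### Entries: faces that are impossible or are a variable -/

omit hZ in
def deadF (l : List ℕ) (m J : ℕ) : List ℕ → ℕ → Bool
  | [], acc => Nat.beq acc 0
  | w :: ws, acc => subM (wact w l) m && deadF l m J ws (Nat.land (wrotInv w J) acc)

theorem deadF_sound (l F : List ℕ) (J : ℕ) (hJ : J < 31) (hl : l ∈ cls) (h : Z J (S F)) :
    ∀ (ws : List ℕ) (acc : ℕ), acc < 31 → Z acc (S l) → deadF l (mk F) J ws acc = true → False := by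
  intro ws
  induction ws with
  | nil =>
    intro acc _ hacc hd
    have : acc = 0 := Nat.eq_of_beq_eq_true hd
    rw [this] at hacc
    exact not_zero_cls hZ hl hacc
  | cons w ws ih =>
    intro acc hlt hacc hd
    rw [deadF, Bool.and_eq_true] at hd
    obtain ⟨h1, h2⟩ := hd
    have h3 := sub_image hZ w J l F hJ (cls_mem hl).2 h1 h
    refine ih _ ?_ ?_ h2
    · exact lt_of_le_of_lt Nat.and_le_right hlt
    · exact hZ.inter _ _ _ (wrotInv_lt w J) hlt h3 hacc

omit hZ in
def dead (l : List ℕ) (m J : ℕ) : List ℕ → Bool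
  | [] => false
  | w :: ws => subM (wact w l) m && deadF l m J ws (wrotInv w J)

theorem dead_sound (l F : List ℕ) (J : ℕ) (hJ : J < 31) (hl : l ∈ cls) (h : Z J (S F))
    (ws : List ℕ) (hd : dead l (mk F) J ws = true) : False := by
  cases ws with
  | nil => simp [dead] at hd
  | cons w ws =>
    rw [dead, Bool.and_eq_true] at hd
    exact deadF_sound hZ l F J hJ hl h ws _ (wrotInv_lt w J)
      (sub_image hZ w J l F hJ (cls_mem hl).2 hd.1 h) hd.2

omit hZ in
def entry (vt m J : ℕ) : List ℕ → Option (List ℕ)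
  | [] => none
  | h :: ws =>
    cond (Nat.beq (h % 2) 0)
      (match cls[h / 2]? with
        | none => none
        | some l => cond (dead l m J ws) (some []) none)
      (match ws with
        | [w] =>
          cond (Nat.blt (getJ vt (h / 2)) 31 && (Nat.beq (wrot w (getJ vt (h / 2))) J &&
            Nat.beq (mk (wact w (getL vt (h / 2)))) m)) (some [2 * (h / 2)]) none
        | _ => none)

theorem entry_sound (F : List ℕ) (J : ℕ) (hJ : J < 31) (h : Z J (S F)) (en lits : List ℕ)
    (he : entry vt (mk F) J en = some lits) : holds Z vt lits := by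
  cases en with
  | nil => simp [entry] at he
  | cons a ws =>
    unfold entry at he
    dsimp only at he
    by_cases hp : Nat.beq (a % 2) 0 = true
    · rw [hp, cond_true] at he
      cases hc : cls[a / 2]? with
      | none => rw [hc] at he; exact absurd he (by simp)
      | some l =>
        rw [hc] at he
        simp only at he
        have hl : l ∈ cls := List.mem_of_getElem? hc
        by_cases hd : dead l (mk F) J ws = true
        · exact (dead_sound hZ l F J hJ hl h ws hd).elim
        · rw [Bool.eq_false_iff.2 hd, cond_false] at he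
          exact absurd he (by simp)
    · rw [Bool.eq_false_iff.2 hp, cond_false] at he
      match ws, he with
      | [w], he =>
        simp only at he
        by_cases hb : (Nat.blt (getJ vt (a / 2)) 31 && (Nat.beq (wrot w (getJ vt (a / 2))) J &&
            Nat.beq (mk (wact w (getL vt (a / 2)))) (mk F))) = true
        · rw [hb, cond_true] at he
          simp only [Bool.and_eq_true, Nat.blt_eq, Nat.beq_eq] at hb
          obtain ⟨h1, h2, h3⟩ := hb
          have : lits = [2 * (a / 2)] := by simpa using he.symm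
          subst this
          refine ⟨2 * (a / 2), by simp, ?_⟩
          rw [tv_even]
          unfold val
          apply wact_back hZ w _ _ h1
          rw [h2, S_eq_of_mk h3]
          exact h
        · rw [Bool.eq_false_iff.2 hb, cond_false] at he
          exact absurd he (by simp)

omit hZ in
/-- entries for all `v :: r`, `v` in the list -/
def entries (vt J : ℕ) (r : List ℕ) : List ℕ → List (List ℕ) → Option (List ℕ)
  | [], _ => some []
  | _ :: _, [] => none
  | v :: vs, e :: es =>
    match entry vt (mk (v :: r)) J e with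
    | none => none
    | some a =>
      match entries vt J r vs es with
      | none => none
      | some b => some (a ++ b)

theorem entries_sound (J : ℕ) (hJ : J < 31) (r : List ℕ) : ∀ (vs : List ℕ) (es : List (List ℕ))
    (lits : List ℕ), entries vt J r vs es = some lits → ∀ v ∈ vs, Z J (S (v :: r)) →
      holds Z vt lits := by
  intro vs
  induction vs with
  | nil => intro es lits _ v hv; simp at hv
  | cons u vs ih =>
    intro es lits he v hv hz
    cases es with
    | nil => simp [entries] at he
    | cons e es =>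
      unfold entries at he
      cases h1 : entry vt (mk (u :: r)) J e with
      | none => rw [h1] at he; exact absurd he (by simp)
      | some a =>
        rw [h1] at he
        simp only at he
        cases h2 : entries vt J r vs es with
        | none => rw [h2] at he; exact absurd he (by simp)
        | some b =>
          rw [h2] at he
          have : lits = a ++ b := by simpa using he.symm
          subst this
          rcases List.mem_cons.1 hv with rfl | hv
          · obtain ⟨l, hl, ht⟩ := entry_sound hZ vt (v :: r) J hJ hz e a h1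
            exact ⟨l, List.mem_append_left _ hl, ht⟩
          · obtain ⟨l, hl, ht⟩ := ih es b h2 v hv hz
            exact ⟨l, List.mem_append_right _ hl, ht⟩

end Y475.CP4
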