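import Pool.Agent.Y475.CP4Fam

namespace Y475.CP4

def nod : List ℕ → Bool
  | [] => true
  | x :: l => !(l.any (fun y => Nat.beq x y)) && nod l

theorem card_S : ∀ (r : List ℕ), r.all (fun x => Nat.blt x 31) = true → nod r = true →
    (S r).card = r.length := by
  intro r
  induction r with
  | nil => intro _ _; simp [S]
  | cons x l ih =>
    intro h1 h2
    rw [List.all_cons, Bool.and_eq_true] at h1
    rw [nod, Bool.and_eq_true] at h2
    rw [S_cons, Finset.card_insert_of_notMem, ih h1.2 h2.2, List.length_cons]
    intro hx
    rw [mem_S] at hx
    obtain ⟨y, hy, hyx⟩ := hx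
    have hy31 : y < 31 := by
      have := List.all_eq_true.1 h1.2 y hy
      simpa using this
    have hx31 : x < 31 := by simpa using h1.1
    have hxy := cast_inj31 hy31 hx31 hyx
    have h3 := h2.1
    rw [Bool.not_eq_true'] at h3
    have h4 : (l.any (fun y => Nat.beq x y)) = true := by
      rw [List.any_eq_true]
      exact ⟨y, hy, by rw [hxy]; exact Nat.beq_refl x⟩
    rw [h4] at h3
    exact absurd h3 (by simp)

/-- remaining vertices -/
def others (r : List ℕ) (u : ℕ) : List ℕ :=
  (List.range 31).filter (fun v => !(r.any (fun x => Nat.beq x v)) && !(Nat.beq v u))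

theorem mem_others {r : List ℕ} {u : ℕ} {v : ZMod 31} (hr : v ∉ S r) (hu : v.val ≠ u) :
    v.val ∈ others r u := by
  unfold others
  rw [List.mem_filter]
  refine ⟨by simpa using ZMod.val_lt v, ?_⟩
  rw [Bool.and_eq_true]
  constructor
  · rw [Bool.not_eq_true', Bool.eq_false_iff]
    intro h
    rw [List.any_eq_true] at h
    obtain ⟨x, hx, hxv⟩ := h
    have : x = v.val := Nat.eq_of_beq_eq_true hxv
    apply hr
    rw [mem_S]
    exact ⟨x, hx, by rw [this]; exact ZMod.natCast_zmod_val v⟩
  · rw [Bool.not_eq_true', Bool.eq_false_iff]
    intro h
    exact hu (Nat.eq_of_beq_eq_true h)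

def okR (r : List ℕ) (J : ℕ) : Bool :=
  Nat.blt J 31 && (Nat.ble 1 (pc J) && (Nat.ble (pc J) 3 && (Nat.beq r.length (4 + pc J) &&
    (r.all (fun x => Nat.blt x 31) && nod r))))

variable {Z : ℕ → Finset (ZMod 31) → Prop} (hZ : Sys Z) (vt : ℕ)

/-- premise of an existence step -/
def premE (vt : ℕ) (r : List ℕ) (J : ℕ) : List ℕ → Option (List ℕ)
  | [k] =>
    match P24[k]? with
    | none => none
    | some b => cond (Nat.beq (mk r) (mk (scanMod (r.headD 0) b))) (some []) none
  | [p, w] =>
    cond (Nat.blt (getJ vt p) 31 && (Nat.beq (wrot w (getJ vt p)) J &&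
      Nat.beq (mk (wact w (getL vt p))) (mk r))) (some [2 * p + 1]) none
  | _ => none

include hZ

theorem premE_sound (r : List ℕ) (J : ℕ) (hJ : J < 31) (pr lits : List ℕ)
    (h : premE vt r J pr = some lits) : holds Z vt lits ∨ Z J (S r) := by
  match pr, h with
  | [k], h =>
    unfold premE at h
    dsimp only at h
    cases hk : P24[k]? with
    | none => rw [hk] at h; exact absurd h (by simp)
    | some b =>
      rw [hk] at h
      dsimp only at h
      by_cases hb : Nat.beq (mk r) (mk (scanMod (r.headD 0) b)) = true
      · right
        have hm : S r ∈ torus := by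
          rw [S_eq_of_mk (Nat.eq_of_beq_eq_true hb)]
          exact torus_of_facet _ b (List.mem_of_getElem? hk)
        have h0 : Z 0 (S r) := (hZ.tor _).2 hm
        exact hZ.mono 0 J _ (by norm_num) hJ (Nat.zero_and J) h0
      · rw [Bool.eq_false_iff.2 hb, cond_false] at h
        exact absurd h (by simp)
  | [p, w], h =>
    unfold premE at h
    dsimp only at h
    by_cases hb : (Nat.blt (getJ vt p) 31 && (Nat.beq (wrot w (getJ vt p)) J &&
      Nat.beq (mk (wact w (getL vt p))) (mk r))) = true
    · rw [hb, cond_true] at h
      simp only [Bool.and_eq_true, Nat.blt_eq, Nat.beq_eq] at hb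
      obtain ⟨h1, h2, h3⟩ := hb
      have hl : lits = [2 * p + 1] := by simpa using h.symm
      subst hl
      by_cases hv : val Z vt p
      · right
        unfold val at hv
        have := wact_fwd hZ w _ _ h1 hv
        rwa [h2, S_eq_of_mk h3] at this
      · left
        exact ⟨2 * p + 1, by simp, (tv_odd Z vt p).2 hv⟩
    · rw [Bool.eq_false_iff.2 hb, cond_false] at h
      exact absurd h (by simp)

omit hZ in
def chkE (vt : ℕ) (r : List ℕ) (J : ℕ) (pr : List ℕ) (ents : List (List ℕ)) : Option (List ℕ) :=
  cond (okR r J)
    (match premE vt r J pr with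
      | none => none
      | some a =>
        match entries vt J r (others r 31) ents with
        | none => none
        | some b => some (a ++ b))
    none

theorem chkE_sound (r : List ℕ) (J : ℕ) (pr : List ℕ) (ents : List (List ℕ)) (lits : List ℕ)
    (h : chkE vt r J pr ents = some lits) : holds Z vt lits := by
  unfold chkE at h
  by_cases ho : okR r J = true
  · rw [ho, cond_true] at h
    unfold okR at ho
    simp only [Bool.and_eq_true, Nat.blt_eq, Nat.ble_eq, Nat.beq_eq] at ho
    obtain ⟨hJ, hp1, hp3, hlen, hall, hnod⟩ := ho
    cases ha : premE vt r J pr with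
    | none => rw [ha] at h; exact absurd h (by simp)
    | some a =>
      rw [ha] at h
      dsimp only at h
      cases hb : entries vt J r (others r 31) ents with
      | none => rw [hb] at h; exact absurd h (by simp)
      | some b =>
        rw [hb] at h
        have hl : lits = a ++ b := by simpa using h.symm
        subst hl
        rcases premE_sound hZ vt r J hJ pr a ha with h1 | h1
        · obtain ⟨l, hl, ht⟩ := h1
          exact ⟨l, List.mem_append_left _ hl, ht⟩
        · have hcard : (S r).card = 4 + pc J := by rw [card_S r hall hnod, hlen]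
          obtain ⟨v, hv, hz⟩ := hZ.ext J (S r) hJ hp1 hp3 hcard h1
          have hmem := mem_others (r := r) (u := 31) hv (by have := ZMod.val_lt v; omega)
          have he : S (v.val :: r) = insert v (S r) := by
            rw [S_cons, ZMod.natCast_zmod_val]
          obtain ⟨l, hl, ht⟩ := entries_sound hZ vt J hJ r _ ents b hb v.val hmem (by rw [he]; exact hz)
          exact ⟨l, List.mem_append_right _ hl, ht⟩
  · rw [Bool.eq_false_iff.2 ho, cond_false] at h
    exact absurd h (by simp)

omit hZ in
/-- lower zones -/
def lowsF (vt J : ℕ) (r : List ℕ) : List ℕ → List (List ℕ) → Option (List ℕ)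
  | [], _ => some []
  | i :: is, es =>
    cond (Nat.beq (Nat.xor J (2 ^ i)) 0)
      (cond (notT r) (lowsF vt J r is es) none)
      (match es with
        | [] => none
        | e :: es =>
          cond (Nat.blt (Nat.xor J (2 ^ i)) 31)
            (match entry vt (mk r) (Nat.xor J (2 ^ i)) e with
              | none => none
              | some a =>
                match lowsF vt J r is es with
                | none => none
                | some b => some (a ++ b))
            none)

theorem lowsF_sound (J : ℕ) (r : List ℕ) : ∀ (is : List ℕ) (es : List (List ℕ)) (lits : List ℕ),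
    lowsF vt J r is es = some lits → ∀ i ∈ is, Z (J ^^^ 2 ^ i) (S r) → holds Z vt lits := by
  intro is
  induction is with
  | nil => intro es lits _ i hi; simp at hi
  | cons j is ih =>
    intro es lits h i hi hz
    unfold lowsF at h
    by_cases h0 : Nat.beq (Nat.xor J (2 ^ j)) 0 = true
    · rw [h0, cond_true] at h
      by_cases hn : notT r = true
      · rw [hn, cond_true] at h
        rcases List.mem_cons.1 hi with rfl | hi
        · exfalso
          have h00 : J ^^^ 2 ^ i = 0 := Nat.eq_of_beq_eq_true h0
          rw [h00, hZ.tor] at hz
          exact not_torus_of_notT hn hz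
        · exact ih es lits h i hi hz
      · rw [Bool.eq_false_iff.2 hn, cond_false] at h
        exact absurd h (by simp)
    · rw [Bool.eq_false_iff.2 h0, cond_false] at h
      cases es with
      | nil => exact absurd h (by simp)
      | cons e es =>
        dsimp only at h
        by_cases hlt : Nat.blt (Nat.xor J (2 ^ j)) 31 = true
        · rw [hlt, cond_true] at h
          cases ha : entry vt (mk r) (Nat.xor J (2 ^ j)) e with
          | none => rw [ha] at h; exact absurd h (by simp)
          | some a =>
            rw [ha] at h
            dsimp only at h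
            cases hb : lowsF vt J r is es with
            | none => rw [hb] at h; exact absurd h (by simp)
            | some b =>
              rw [hb] at h
              have hl : lits = a ++ b := by simpa using h.symm
              subst hl
              rcases List.mem_cons.1 hi with rfl | hi
              · obtain ⟨l, hl, ht⟩ := entry_sound hZ vt r _ (by simpa using hlt) hz e a ha
                exact ⟨l, List.mem_append_left _ hl, ht⟩
              · obtain ⟨l, hl, ht⟩ := ih es b hb i hi hz
                exact ⟨l, List.mem_append_right _ hl, ht⟩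
        · rw [Bool.eq_false_iff.2 hlt, cond_false] at h
          exact absurd h (by simp)

omit hZ in
def chkI (vt : ℕ) (r : List ℕ) (J v p w : ℕ) (lws ents : List (List ℕ)) : Option (List ℕ) :=
  cond (okR r J && (Nat.blt v 31 && (!(r.any (fun x => Nat.beq x v)) &&
      (Nat.blt (getJ vt p) 31 && (Nat.beq (wrot w (getJ vt p)) J &&
        Nat.beq (mk (wact w (getL vt p))) (mk (v :: r)))))))
    (match lowsF vt J r ((List.range 5).filter (fun i => J.testBit i)) lws with
      | none => none
      | some a =>
        match entries vt J r (others r v) ents with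
        | none => none
        | some b => some ((2 * p + 1) :: (a ++ b)))
    none

theorem chkI_sound (r : List ℕ) (J v p w : ℕ) (lws ents : List (List ℕ)) (lits : List ℕ)
    (h : chkI vt r J v p w lws ents = some lits) : holds Z vt lits := by
  unfold chkI at h
  by_cases ho : (okR r J && (Nat.blt v 31 && (!(r.any (fun x => Nat.beq x v)) &&
      (Nat.blt (getJ vt p) 31 && (Nat.beq (wrot w (getJ vt p)) J &&
        Nat.beq (mk (wact w (getL vt p))) (mk (v :: r))))))) = true
  · rw [ho, cond_true] at h
    unfold okR at ho
    simp only [Bool.and_eq_true, Nat.blt_eq, Nat.ble_eq, Nat.beq_eq] at ho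
    obtain ⟨⟨hJ, hp1, hp3, hlen, hall, hnod⟩, hv31, hvr, hJp, hwJ, hmk⟩ := ho
    cases ha : lowsF vt J r ((List.range 5).filter (fun i => J.testBit i)) lws with
    | none => rw [ha] at h; exact absurd h (by simp)
    | some a =>
      rw [ha] at h
      dsimp only at h
      cases hb : entries vt J r (others r v) ents with
      | none => rw [hb] at h; exact absurd h (by simp)
      | some b =>
        rw [hb] at h
        have hl : lits = (2 * p + 1) :: (a ++ b) := by simpa using h.symm
        subst hl
        by_cases hval : val Z vt p
        · unfold val at hval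
          have hz := wact_fwd hZ w _ _ hJp hval
          rw [hwJ, S_eq_of_mk hmk, S_cons] at hz
          have hcard : (S r).card = 4 + pc J := by rw [card_S r hall hnod, hlen]
          have hvS : (v : ZMod 31) ∉ S r := by
            intro hc
            rw [mem_S] at hc
            obtain ⟨x, hx, hxv⟩ := hc
            have hx31 : x < 31 := by
              have := List.all_eq_true.1 hall x hx
              simpa using this
            have : x = v := cast_inj31 hx31 hv31 hxv
            subst this
            rw [Bool.not_eq_true', Bool.eq_false_iff] at hvr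
            apply hvr
            rw [List.any_eq_true]
            exact ⟨x, hx, Nat.beq_refl x⟩
          by_cases hlow : ∃ i, i < 5 ∧ J.testBit i = true ∧ Z (J ^^^ 2 ^ i) (S r)
          · obtain ⟨i, hi5, hti, hzi⟩ := hlow
            obtain ⟨l, hl, ht⟩ := lowsF_sound hZ vt J r _ lws a ha i
              (by rw [List.mem_filter]; exact ⟨by simpa using hi5, hti⟩) hzi
            exact ⟨l, List.mem_cons_of_mem _ (List.mem_append_left _ hl), ht⟩
          · obtain ⟨v', hv', hne, hz'⟩ := hZ.int J (S r) v hJ hp1 hp3 hcard hvS hz
              (fun i hi5 hti hzi => hlow ⟨i, hi5, hti, hzi⟩)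
            have hne' : v'.val ≠ v := by
              intro hc
              apply hne
              rw [← hc, ZMod.natCast_zmod_val]
            have hmem := mem_others (r := r) (u := v) hv' hne'
            have he : S (v'.val :: r) = insert v' (S r) := by
              rw [S_cons, ZMod.natCast_zmod_val]
            obtain ⟨l, hl, ht⟩ := entries_sound hZ vt J hJ r _ ents b hb v'.val hmem
              (by rw [he]; exact hz')
            exact ⟨l, List.mem_cons_of_mem _ (List.mem_append_right _ hl), ht⟩
        · exact ⟨2 * p + 1, by simp, (tv_odd Z vt p).2 hval⟩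
  · rw [Bool.eq_false_iff.2 ho, cond_false] at h
    exact absurd h (by simp)

omit hZ in
/-- certificate steps -/
inductive Step
  | k (p : ℕ)
  | m (p : ℕ)
  | m0 (p : ℕ)
  | n (p : ℕ)
  | e (r : List ℕ) (J : ℕ) (pr : List ℕ) (ents : List (List ℕ))
  | i (r : List ℕ) (J v p w : ℕ) (lws ents : List (List ℕ))
  | l (hs : List ℕ)

omit hZ in
def baseClause (vt : ℕ) : Step → Option (List ℕ)
  | .k p => cond (chkK vt (p % 4096) (p / 4096 % 4096) (p / 16777216))
      (some [2 * (p % 4096) + 1, 2 * (p / 4096 % 4096)]) none
  | .m p => cond (chkM vt (p % 4096) (p / 4096 % 4096) (p / 16777216))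
      (some [2 * (p % 4096) + 1, 2 * (p / 4096 % 4096) + 1, 2 * (p / 16777216)]) none
  | .m0 p =>
    match cls[p / 16777216]? with
    | none => none
    | some l => cond (chkM0 vt (p % 4096) (p / 4096 % 4096) l)
      (some [2 * (p % 4096) + 1, 2 * (p / 4096 % 4096) + 1]) none
  | .n p => cond (chkN vt (p % 4096) (p / 4096 % 4096))
      (some [2 * (p % 4096) + 1, 2 * (p / 4096 % 4096)]) none
  | .e r J pr ents => chkE vt r J pr ents
  | .i r J v p w lws ents => chkI vt r J v p w lws ents
  | .l _ => none

omit hZ in
theorem cond_some {α : Type*} {b : Bool} {x y : α} (h : cond b (some x) none = some y) :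
    b = true ∧ x = y := by
  cases b with
  | true => exact ⟨rfl, by simpa using h⟩
  | false => exact absurd h (by simp)

theorem baseClause_sound (s : Step) (c : List ℕ) (h : baseClause vt s = some c) :
    holds Z vt c := by
  cases s with
  | k p =>
    obtain ⟨h1, rfl⟩ := cond_some h
    exact chkK_sound hZ vt h1
  | m p =>
    obtain ⟨h1, rfl⟩ := cond_some h
    exact chkM_sound hZ vt h1
  | m0 p =>
    unfold baseClause at h
    dsimp only at h
    cases hc : cls[p / 16777216]? with
    | none => rw [hc] at h; exact absurd h (by simp)
    | some l =>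
      rw [hc] at h
      dsimp only at h
      obtain ⟨h1, rfl⟩ := cond_some h
      exact chkM0_sound hZ vt (List.mem_of_getElem? hc) h1
  | n p =>
    obtain ⟨h1, rfl⟩ := cond_some h
    exact chkN_sound hZ vt h1
  | e r J pr ents => exact chkE_sound hZ vt r J pr ents c h
  | i r J v p w lws ents => exact chkI_sound hZ vt r J v p w lws ents c h
  | l hs => exact absurd h (by simp [baseClause])

omit hZ in
/-- check of one step -/
def stepOk (vt : ℕ) (db : Tr) (id : ℕ) (s : Step) : Bool :=
  match db.get 11 id with
  | none => false
  | some c =>
    match s with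
    | .l hs => rup db id hs (litSet c)
    | s =>
      match baseClause vt s with
      | none => false
      | some a => Nat.beq (litSet a) (litSet c)

theorem stepOk_sound (db : Tr) (id : ℕ) (s : Step) (h : stepOk vt db id s = true)
    (hdb : ∀ h < id, ∀ c, db.get 11 h = some c → holds Z vt c) :
    ∃ c, db.get 11 id = some c ∧ holds Z vt c := by
  unfold stepOk at h
  cases hc : db.get 11 id with
  | none => rw [hc] at h; exact absurd h (by simp)
  | some c =>
    refine ⟨c, rfl, ?_⟩
    rw [hc] at h
    have hbase : ∀ s : Step, (match baseClause vt s with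
      | none => false
      | some a => Nat.beq (litSet a) (litSet c)) = true → holds Z vt c := by
      intro s hs
      cases hb : baseClause vt s with
      | none => rw [hb] at hs; exact absurd hs (by simp)
      | some a =>
        rw [hb] at hs
        dsimp only at hs
        obtain ⟨l, hl, ht⟩ := baseClause_sound hZ vt s a hb
        refine ⟨l, ?_, ht⟩
        rw [← testBit_litSet] at hl ⊢
        rwa [← Nat.eq_of_beq_eq_true hs]
    cases s with
    | l hs => exact rup_clause Z vt db id hdb c hs h
    | k p => exact hbase _ h
    | m p => exact hbase _ h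
    | m0 p => exact hbase _ h
    | n p => exact hbase _ h
    | e r J pr ents => exact hbase _ h
    | i r J v p w lws ents => exact hbase _ h

omit hZ in
def chkFrom (vt : ℕ) (db : Tr) : ℕ → List Step → Bool
  | _, [] => true
  | id, s :: ss => stepOk vt db id s && chkFrom vt db (id + 1) ss

theorem chkFrom_sound (db : Tr) : ∀ (ss : List Step) (id : ℕ), chkFrom vt db id ss = true →
    (∀ h < id, ∀ c, db.get 11 h = some c → holds Z vt c) →
    ∀ h < id + ss.length, ∀ c, db.get 11 h = some c → holds Z vt c := by
  intro ss
  induction ss with
  | nil => intro id _ h; simpa using h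
  | cons s ss ih =>
    intro id h hdb
    rw [chkFrom, Bool.and_eq_true] at h
    obtain ⟨c, hc, hh⟩ := stepOk_sound hZ vt db id s h.1 hdb
    have := ih (id + 1) h.2 (by
      intro k hk c' hc'
      rcases Nat.lt_or_ge k id with h1 | h1
      · exact hdb k h1 c' hc'
      · have : k = id := by omega
        subst this
        rw [hc] at hc'
        have : c = c' := by simpa using hc'
        rwa [← this])
    intro k hk
    apply this
    rw [List.length_cons] at hk
    omega

end Y475.CP4
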